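import Pool.Agent.Helper47.H2.MapL

/-!
# Type 2: the curves of the chain lie on the complete intersection
-/

set_option autoImplicit false

namespace Pool.Agent.Helper38.H2

open Pool.Agent.Helper24.H2 Pool.Agent.Helper47.H2
open Pool.Agent.Helper28.HN (I Un En cr aff)

section basic

variable {m : ℕ} {S : Type*} [CommRing S]

theorem bf_lin_x (c : Ix m → S) (r : Bi m) (a b : S) (x x' y : I m → S) :
    bf c r (fun i => a * x i + b * x' i) y = a * bf c r x y + b * bf c r x' y := by
  unfold bf
  simp only [Finset.mul_sum, ← Finset.sum_add_distrib]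
  refine Finset.sum_congr rfl fun i _ => Finset.sum_congr rfl fun j _ => ?_
  ring

theorem bf_lin_y (c : Ix m → S) (r : Bi m) (a b : S) (x y y' : I m → S) :
    bf c r x (fun i => a * y i + b * y' i) = a * bf c r x y + b * bf c r x y' := by
  unfold bf
  simp only [Finset.mul_sum, ← Finset.sum_add_distrib]
  refine Finset.sum_congr rfl fun i _ => Finset.sum_congr rfl fun j _ => ?_
  ring

theorem sf_lin_x (c : Ix m → S) (a b : S) (x x' z y : I m → S) :
    sf c (fun i => a * x i + b * x' i) z y = a * sf c x z y + b * sf c x' z y := by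
  unfold sf
  simp only [Finset.mul_sum, ← Finset.sum_add_distrib]
  refine Finset.sum_congr rfl fun i _ => Finset.sum_congr rfl fun j _ =>
    Finset.sum_congr rfl fun k _ => ?_
  ring

theorem sf_lin_y (c : Ix m → S) (a b : S) (x x' y y' : I m → S) :
    sf c x x' (fun i => a * y i + b * y' i) = a * sf c x x' y + b * sf c x x' y' := by
  unfold sf
  simp only [Finset.mul_sum, ← Finset.sum_add_distrib]
  refine Finset.sum_congr rfl fun i _ => Finset.sum_congr rfl fun j _ =>
    Finset.sum_congr rfl fun k _ => ?_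
  ring

theorem tf_lin_y (c : Ix m → S) (a b : S) (x y y' z : I m → S) :
    tf c x (fun i => a * y i + b * y' i) z = a * tf c x y z + b * tf c x y' z := by
  unfold tf
  simp only [Finset.mul_sum, ← Finset.sum_add_distrib]
  refine Finset.sum_congr rfl fun i _ => Finset.sum_congr rfl fun j _ =>
    Finset.sum_congr rfl fun k _ => ?_
  ring

theorem tf_lin_x (c : Ix m → S) (a b : S) (x x' y y' : I m → S) :
    tf c (fun i => a * x i + b * x' i) y y' = a * tf c x y y' + b * tf c x' y y' := by
  unfold tf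
  simp only [Finset.mul_sum, ← Finset.sum_add_distrib]
  refine Finset.sum_congr rfl fun i _ => Finset.sum_congr rfl fun j _ =>
    Finset.sum_congr rfl fun k _ => ?_
  ring

theorem sf_quad (c : Ix m → S) (a b : S) (x ξ y : I m → S) :
    sf c (fun i => a * x i + b * ξ i) (fun i => a * x i + b * ξ i) y =
      a ^ 2 * sf c x x y + 2 * a * b * sf c x ξ y + b ^ 2 * sf c ξ ξ y := by
  rw [sf_lin_x, sf_symm c x, sf_symm c ξ, sf_lin_x, sf_lin_x, sf_symm c ξ x]
  ring

theorem tf_quad (c : Ix m → S) (a b : S) (x y η : I m → S) :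
    tf c x (fun i => a * y i + b * η i) (fun i => a * y i + b * η i) =
      a ^ 2 * tf c x y y + 2 * a * b * tf c x y η + b ^ 2 * tf c x η η := by
  rw [tf_lin_y, tf_symm c x y, tf_symm c x η, tf_lin_y, tf_lin_y, tf_symm c x η y]
  ring

/-- The last linear form over `y`. -/
theorem bf_xh (c : Ix m → S) (r : Bi m) (y : I m → S) : bf c r (xh c y) y = 0 := by
  have h := ly_xh c y r.1
  unfold ly at h
  rwa [dif_pos r.2] at h

theorem tf_xh (hm : 1 ≤ m) (c : Ix m → S) (y : I m → S) : tf c (xh c y) y y = 0 := by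
  have h := ly_xh c y ⟨m - 1, by omega⟩
  unfold ly at h
  rwa [dif_neg (by show ¬ (m - 1 + 1 < m); omega)] at h

theorem bf_Y1 (c : Ix m → S) (r : Bi m) (x : I m → S) : bf c r x (Y1 c x) = 0 := by
  have h := lx_Y1 c x r.1
  unfold lx at h
  rwa [dif_pos r.2] at h

theorem sf_Y1 (hm : 1 ≤ m) (c : Ix m → S) (x : I m → S) : sf c x x (Y1 c x) = 0 := by
  have h := lx_Y1 c x ⟨m - 1, by omega⟩
  unfold lx at h
  rwa [dif_neg (by show ¬ (m - 1 + 1 < m); omega)] at h

/-- The involution over `y` preserves the complete intersection. -/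
theorem onX_nx (hm : 1 ≤ m) {c : Ix m → S} {x y : I m → S} (h : OnX c x y) :
    OnX c (nx c x y) y := by
  have e : nx c x y = fun i => sf c (xh c y) (xh c y) y * x i +
      (- (2 * sf c x (xh c y) y)) * xh c y i := by
    funext i
    unfold nx
    ring
  rw [e]
  refine ⟨fun r => ?_, ?_, ?_⟩
  · rw [bf_lin_x, h.1 r, bf_xh]
    ring
  · rw [sf_quad, h.2.1]
    ring
  · rw [tf_lin_x, h.2.2, tf_xh hm]
    ring

/-- The involution over `x` preserves the complete intersection. -/
theorem onX_ny (hm : 1 ≤ m) {c : Ix m → S} {x y : I m → S} (h : OnX c x y) :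
    OnX c x (ny c x y) := by
  have e : ny c x y = fun i => Ah c x * y i + (- (2 * tf c x y (Y1 c x))) * Y1 c x i := by
    funext i
    unfold ny
    ring
  rw [e]
  refine ⟨fun r => ?_, ?_, ?_⟩
  · rw [bf_lin_y, h.1 r, bf_Y1]
    ring
  · rw [sf_lin_y, h.2.1, sf_Y1 hm]
    ring
  · rw [tf_quad, h.2.2]
    unfold Ah
    ring

end basic

section chain

variable {m : ℕ}

/-- All curves of the chain lie on the complete intersection. -/
theorem onX_ch (hm : 1 ≤ m) {S : Type*} [CommRing S] {c : Ix m → S} {x0 ξ0 y1 : I m → S}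
    (l0 : ∀ r, bf c r x0 y1 = 0) (l1 : ∀ r, bf c r ξ0 y1 = 0) (q0 : tf c x0 y1 y1 = 0)
    (q1 : tf c ξ0 y1 y1 = 0) (s0 : sf c x0 x0 y1 = 0) (s1 : sf c x0 ξ0 y1 = 0)
    (s2 : sf c ξ0 ξ0 y1 = 0) (N : ℕ) :
    OnX (fun e => Polynomial.C (c e)) (ch c x0 ξ0 y1 N).1 (ch c x0 ξ0 y1 N).2 := by
  induction N with
  | zero =>
    have e : (ch c x0 ξ0 y1 0).1 = fun i => 1 * (Polynomial.C (x0 i)) +
        Polynomial.X * (Polynomial.C (ξ0 i)) := by
      funext i
      simp [ch]
    have e2 : (ch c x0 ξ0 y1 0).2 = fun i => Polynomial.C (y1 i) := rfl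
    have hb : ∀ (r : Bi m) (a b : I m → S), bf (fun e => Polynomial.C (c e)) r
        (fun i => Polynomial.C (a i)) (fun i => Polynomial.C (b i)) =
        Polynomial.C (bf c r a b) := by
      intro r a b
      simp [bf]
    have hs : ∀ a a' b : I m → S, sf (fun e => Polynomial.C (c e))
        (fun i => Polynomial.C (a i)) (fun i => Polynomial.C (a' i))
        (fun i => Polynomial.C (b i)) = Polynomial.C (sf c a a' b) := by
      intro a a' b
      simp [sf]
    have ht : ∀ a b b' : I m → S, tf (fun e => Polynomial.C (c e))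
        (fun i => Polynomial.C (a i)) (fun i => Polynomial.C (b i))
        (fun i => Polynomial.C (b' i)) = Polynomial.C (tf c a b b') := by
      intro a b b'
      simp [tf]
    rw [e, e2]
    refine ⟨fun r => ?_, ?_, ?_⟩
    · rw [bf_lin_x, hb, hb, l0, l1]
      simp
    · rw [sf_quad, hs, hs, hs, s0, s1, s2]
      simp
    · rw [tf_lin_x, ht, ht, q0, q1]
      simp
  | succ N ih =>
    rw [ch]
    split_ifs with hN
    · exact onX_ny hm ih
    · exact onX_nx hm ih

end chain

end Pool.Agent.Helper38.H2
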