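import Pool.Agent.Helper38.H2.Chain
import Pool.Agent.Helper38.HN.Points
import Pool.Agent.Helper47.H2.Norm

/-!
# Type 2: rational points on the curves of the chain

`val`, `clear`, `val_eq_zero`, `val_generic`, `infinite_good`, `toFrac`, `toFrac_injective` from
`Helper38/HN/Points.lean` do not depend on the forms.
-/

set_option autoImplicit false

namespace Pool.Agent.Helper38.H2

open Pool.Agent.Helper24.H2 Pool.Agent.Helper47.H2
open Pool.Agent.Helper28.HN (I Un En cr aff)
open Pool.Agent.Helper38.HN (val clear val_eq_zero val_generic infinite_good toFrac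
  toFrac_injective aff_div)

section scale

variable {m : ℕ} {B : Type*} [Field B]

theorem bf_smul_smul (c : Ix m → B) (r : Bi m) (a b : B) (x y : I m → B) :
    bf c r (fun i => a * x i) (fun i => b * y i) = a * b * bf c r x y := by
  rw [bf_smul_left, bf_smul_right]
  ring

theorem sf_smul_smul (c : Ix m → B) (a b : B) (x y : I m → B) :
    sf c (fun i => a * x i) (fun i => a * x i) (fun i => b * y i) = a ^ 2 * b * sf c x x y := by
  rw [sf_smul1, sf_smul2, sf_smul3]
  ring

theorem tf_smul_smul (c : Ix m → B) (a b : B) (x y : I m → B) :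
    tf c (fun i => a * x i) (fun i => b * y i) (fun i => b * y i) = a * b ^ 2 * tf c x y y := by
  rw [tf_smul1, tf_smul2, tf_smul3]
  ring

theorem onX_aff {c : Ix m → B} {x y : I m → B} (h : OnX c x y) (hx : x 0 ≠ 0) (hy : y 0 ≠ 0) :
    OnX c (aff fun i : Fin (m + 1) => x i.succ / x 0)
      (aff fun i : Fin (m + 1) => y i.succ / y 0) := by
  rw [aff_div x hx, aff_div y hy]
  refine ⟨fun r => ?_, ?_, ?_⟩
  · rw [bf_smul_smul, h.1 r, mul_zero]
  · rw [sf_smul_smul, h.2.1, mul_zero]
  · rw [tf_smul_smul, h.2.2, mul_zero]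

end scale

section clear

variable {m : ℕ} {K K' : Type} [Field K] [Field K'] [Algebra K K']

/-- The rational point of the chart at the parameter `t` is on the complete intersection. -/
theorem chart_point {c : Ix m → K'} {X Y : I m → Polynomial K'}
    (h : OnX (fun e => Polynomial.C (c e)) X Y) {B : Type} [Field B] (φ : Polynomial K' →+* B)
    (hx : φ (X 0) ≠ 0) (hy : φ (Y 0) ≠ 0) :
    OnX (fun e => φ (Polynomial.C (c e))) (aff fun i : Fin (m + 1) => φ (X i.succ) / φ (X 0))
      (aff fun i : Fin (m + 1) => φ (Y i.succ) / φ (Y 0)) := by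
  have h1 := Pool.Agent.Helper47.H2.OnX.map φ h
  exact onX_aff h1 hx hy

/-- All elements of the chart ideal vanish at the points of the curves of the chain. -/
theorem val_chartIdeal {c : Ix m → K} {X Y : I m → Polynomial K'}
    (h : OnX (fun e => Polynomial.C (algebraMap K K' (c e))) X Y) {B : Type} [Field B]
    (φ : Polynomial K' →+* B) (hx : φ (X 0) ≠ 0) (hy : φ (Y 0) ≠ 0)
    (F : MvPolynomial (Fin (m + 1) ⊕ Fin (m + 1)) K)
    (hF : F ∈ Pool.Agent.Helper47.H2.chartIdeal c) : val φ X Y F = 0 := by
  letI : Algebra K B := (φ.comp (Polynomial.C.comp (algebraMap K K'))).toAlgebra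
  have h1 := chart_point h φ hx hy
  have h2 := (Pool.Agent.Helper47.H2.chartIdeal_le' (S := B) c
    (fun i : Fin (m + 1) => φ (X i.succ) / φ (X 0))
    (fun i : Fin (m + 1) => φ (Y i.succ) / φ (Y 0))).2 h1
  exact RingHom.mem_ker.1 (h2 hF)

end clear

end Pool.Agent.Helper38.H2
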